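import Pool.Agent.Run7.h527.TP.Cb
import Pool.Agent.Results.MP_fc6b1e_nt.TotientOrbits

/-!
# The `Σ`-Leopoldt conjecture for all primes up to a power of the parameter, for ALL parameters near aliquot sums, cototients
# and arithmetic derivatives

Let `a_1, …, a_d` be nonzero integers of different absolute values. For an integer `t` let `F = ℚ(w)`,
`∏ (w - a_i² t²) = 1`. `Good p (a t)` (see `AlmostAllFields.lean`): the fields `F` and, for every imaginary quadratic field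
`k`, fields `K ⊇ F k` exist; every such `F` is totally real of degree `d`; `w` is neither a square in `F` nor in any totally
complex quadratic extension `K` of `F`; and for EVERY totally complex quadratic extension `K` of `F`, for `H = K(√w)`, the
`Σ`-Leopoldt statement holds for the prime `p`, every CM type `S` of `K` and every character of `Gal(H/K)`.

Let `g(m)` be the sum of the proper divisors of `m`, the cototient `m - φ(m)`, the arithmetic derivative `m'` (with `p' = 1`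
for primes and Leibniz' rule), or any positive combination `α m + β f(m)` with `f = σ`, `φ` or the arithmetic derivative. Let
`G` have steps bounded below by a positive constant and growth at most `v^e`, and let `2 e ρ + κ < τ ≤ 1`. There is a nonzero
polynomial `Δ`, depending on the `a_i` only, such that for all `m ≤ N` which have two prime factors `p ≠ q`, not dividing
`m / (p q) ≥ 2`, with `p q ≥ m^τ`, but at most `N^(1 - η)` of them, the following is true for ALL integers `t` with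
`||t| - G (g m)| ≤ g(m)^κ` and ALL primes `p ≤ |t|^ρ` which do not divide `Δ(t)`: `Good p (a t)`. For every `ε > 0` there are
`ρ > 0` and `κ > 0` such that this is true for ALL `m ≤ N` but `ε N`.

Proof. Write `m = k p q`. Then `g(m) = a p q + b (p + q) + c` with integers `a ≠ 0`, `b`, `c` which depend on `k` only, and
`(a p + b) (a q + b) = a g(m) + b² - a c`. So for given `k ≤ N^(1 - τ)` every value is taken for at most `N^ε` pairs `p`, `q`
(the tool `Run7/h527/TP`), and there are at most `X^(2 ρ)` exceptional parameters up to `X` (starting files `ManyPrimes`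
and `TotientOrbits` of this problem). For small `τ` all but `ε N` integers have two such primes, by the second moment of the
number of the prime factors in `(N^(τ / 2), N^(1 / 8))`.
-/

set_option autoImplicit false

namespace Pool.Agent.Results.MP_fc6b1e_nt.AliquotSums

open Pool.Agent.Results.MP_fc6b1e_nt.AlmostAllFields (Good)
open Pool.Agent.Results.MP_fc6b1e_nt.TotientOrbits (Exceptional many count)
open Pool.Agent.N733.TG (Expanding expanding_pow)
open Run7.h527.TP (Bil Two windows density combine aliquot cototient deriv sig comb)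

/-- **`Σ`-Leopoldt near the values of functions which are bilinear in two large primes.** Let `a_1, …, a_d`, `d ≥ 1`, be
nonzero integers of different absolute values. There is a nonzero polynomial `Δ` such that: for all `g` of the class `Bil`, all
`G` with steps `≥ a > 0` and growth at most `v^e` and all `ρ, κ ≥ 0` with `2 e ρ + κ < τ ≤ 1` there is `η > 0` such that for
all large `N`, for all `m ≤ N` with `Two τ m` but at most `N^(1 - η)`, for ALL integers `t` with `||t| - G (g m)| ≤ g(m)^κ`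
and ALL primes `p ≤ |t|^ρ` which do not divide `Δ(t)` the parameters `a_i t` are good at `p`; and for all `e ≥ 1`, `ε > 0`
there are `ρ > 0`, `κ > 0` such that for all such `g`, `G` this holds for ALL `m ≤ N` but `ε N`. The sum of the proper
divisors, the cototient, the arithmetic derivative and their positive combinations with the identity are examples of `g`. -/
theorem result :
    (∀ (d : ℕ), 1 ≤ d → ∀ a : Fin d → ℤ, (∀ i, a i ≠ 0) → (Function.Injective fun i => |a i|) →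
      ∃ Δ : Polynomial ℤ, Δ ≠ 0 ∧
        (∀ g : ℕ → ℕ, Bil g → ∀ (G : ℕ → ℝ) (e : ℝ), Expanding G e →
          ∀ ρ κ τ : ℝ, 0 ≤ ρ → 0 ≤ κ → 2 * e * ρ + κ < τ → τ ≤ 1 → ∃ η : ℝ, 0 < η ∧ ∃ N₀ : ℕ, ∀ N : ℕ, N₀ ≤ N →
          ({m : ℕ | 1 ≤ m ∧ m ≤ N ∧ Two τ m ∧
            ¬ ∀ t : ℤ, |(|(t : ℝ)|) - G (g m)| ≤ (g m : ℝ) ^ κ →
              ∀ (p : ℕ) [Fact p.Prime], (p : ℝ) ≤ |(t : ℝ)| ^ ρ → ¬ (p : ℤ) ∣ Δ.eval t →
                Good p (fun j => a j * t)}.ncard : ℝ) ≤ (N : ℝ) ^ (1 - η)) ∧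
        (∀ e ε : ℝ, 1 ≤ e → 0 < ε → ∃ ρ κ : ℝ, 0 < ρ ∧ 0 < κ ∧ ∀ g : ℕ → ℕ, Bil g → ∀ G : ℕ → ℝ, Expanding G e →
          ∃ N₀ : ℕ, ∀ N : ℕ, N₀ ≤ N →
          ({m : ℕ | 1 ≤ m ∧ m ≤ N ∧
            ¬ ∀ t : ℤ, |(|(t : ℝ)|) - G (g m)| ≤ (g m : ℝ) ^ κ →
              ∀ (p : ℕ) [Fact p.Prime], (p : ℝ) ≤ |(t : ℝ)| ^ ρ → ¬ (p : ℤ) ∣ Δ.eval t →
                Good p (fun j => a j * t)}.ncard : ℝ) ≤ ε * N)) ∧
    (Bil aliquot ∧ Bil cototient ∧ Bil deriv ∧
      (∀ α β : ℤ, (∀ m : ℕ, 2 ≤ m → 0 < α * m + β * sig m) → Bil (comb α β sig)) ∧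
      (∀ α β : ℤ, (∀ m : ℕ, 2 ≤ m → 0 < α * m + β * Nat.totient m) → Bil (comb α β Nat.totient)) ∧
      ∀ α β : ℤ, (∀ m : ℕ, 2 ≤ m → 0 < α * m + β * deriv m) → Bil (comb α β deriv)) ∧
    ∀ α e : ℝ, 0 < α → 1 ≤ e → Expanding (fun v => α * (v : ℝ) ^ e) e := by
  refine ⟨fun d hd a ha0 ha => ?_, Run7.h527.TP.examples, fun α e hα he => expanding_pow hα he⟩
  obtain ⟨Δ, C₀, hΔ, h⟩ := many d hd a ha0 ha
  have one : ∀ g : ℕ → ℕ, Bil g → ∀ (G : ℕ → ℝ) (e : ℝ), Expanding G e →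
      ∀ ρ κ τ : ℝ, 0 ≤ ρ → 0 ≤ κ → 2 * e * ρ + κ < τ → τ ≤ 1 → ∃ η : ℝ, 0 < η ∧ ∃ N₀ : ℕ, ∀ N : ℕ, N₀ ≤ N →
      ({m : ℕ | 1 ≤ m ∧ m ≤ N ∧ Two τ m ∧
        ¬ ∀ t : ℤ, |(|(t : ℝ)|) - G (g m)| ≤ (g m : ℝ) ^ κ →
          ∀ (p : ℕ) [Fact p.Prime], (p : ℝ) ≤ |(t : ℝ)| ^ ρ → ¬ (p : ℤ) ∣ Δ.eval t →
            Good p (fun j => a j * t)}.ncard : ℝ) ≤ (N : ℝ) ^ (1 - η) := by
    intro g hg G e hG ρ κ τ hρ hκ h1 hτ
    obtain ⟨η, hη, N₀, hN₀⟩ := windows (Exceptional a Δ ρ) (fun t : ℤ => |(t : ℝ)|) hg hG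
      (s := 2 * ρ) (κ := κ) (τ := τ) (by positivity) hκ (by linarith) hτ
      (fun ε hε => count a Δ C₀ h ρ hρ ε hε)
    refine ⟨η, hη, N₀, fun N hN => le_trans ?_ (hN₀ N hN)⟩
    have hfin : {m : ℕ | 1 ≤ m ∧ m ≤ N ∧ Two τ m ∧
        ∃ t ∈ Exceptional a Δ ρ, |(|(t : ℝ)|) - G (g m)| ≤ (g m : ℝ) ^ κ}.Finite :=
      (Set.finite_Icc 1 N).subset fun m hm => ⟨hm.1, hm.2.1⟩
    have hsub : {m : ℕ | 1 ≤ m ∧ m ≤ N ∧ Two τ m ∧
        ¬ ∀ t : ℤ, |(|(t : ℝ)|) - G (g m)| ≤ (g m : ℝ) ^ κ →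
          ∀ (p : ℕ) [Fact p.Prime], (p : ℝ) ≤ |(t : ℝ)| ^ ρ → ¬ (p : ℤ) ∣ Δ.eval t →
            Good p (fun j => a j * t)} ⊆
        {m : ℕ | 1 ≤ m ∧ m ≤ N ∧ Two τ m ∧
          ∃ t ∈ Exceptional a Δ ρ, |(|(t : ℝ)|) - G (g m)| ≤ (g m : ℝ) ^ κ} := by
      rintro m ⟨h2, h3, h3', h4⟩
      refine ⟨h2, h3, h3', ?_⟩
      by_contra hcon
      apply h4
      intro t ht
      by_contra h5
      exact hcon ⟨t, h5, ht⟩
    exact_mod_cast Set.ncard_le_ncard hsub hfin
  refine ⟨Δ, hΔ, one, fun e ε he hε => ?_⟩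
  obtain ⟨τ, hτ0, hτ1, hden⟩ := density (ε / 2) (by positivity)
  have he0 : 0 < e := by linarith
  have hρ0 : 0 < τ / (8 * e) := by positivity
  refine ⟨τ / (8 * e), τ / 2, hρ0, by linarith, fun g hg G hG =>
    combine hε hden _ (one g hg G e hG (τ / (8 * e)) (τ / 2) τ hρ0.le (by linarith) ?_ hτ1)⟩
  have h4 : 2 * e * (τ / (8 * e)) = τ / 4 := by
    field_simp
    norm_num
  linarith

end Pool.Agent.Results.MP_fc6b1e_nt.AliquotSums
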