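import Pool.Agent.Run7.h316.PN.Dom
import Pool.Agent.N918.PN.Leo
import Pool.Agent.Results.MP_fc6b1e_nt.AlmostAllFields

/-!
# The `Σ`-Leopoldt conjecture for families with prime parameters, at all primes up to a function tending to infinity

For integers `a_1, …, a_d` let `F = ℚ(w)`, `∏ (w - a_i²) = 1`. `Good p a` (starting file `AlmostAllFields`, helper924): the
fields `F` and, for every imaginary quadratic field `k`, fields `K ⊇ F k` exist; every such `F` is totally real of
degree `d`; `w` is neither a square in `F` nor in any totally complex quadratic extension `K` of `F`; and for EVERY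
totally complex quadratic extension `K` of `F`, for `H = K(√w)`, the `Σ`-Leopoldt statement holds for the prime `p`,
for every CM type `S` of `K` with values in `ℂ_p` and every character `χ` of `Gal(H/K)`.

Let `a w`, `w ∈ Ω`, be a family of vectors of parameters and `S N ⊂ Ω` finite sets. `AlmostAll M`: there is a function
`P(N)` which tends to infinity such that for all but at most the proportion `1 / (P(N) + 1)` of the `w ∈ S N` the vector
`a w` is good for ALL primes `p ≤ P(N)` which do not divide `M`.

**Theorem.** Let `d ≥ 1`.

(1) PRIME PARAMETERS: let `u`, `t` be integral vectors, all `u_i ≠ 0`. The vectors `a = (u_i q_i + t_i)_i`, where the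
`q_i` are prime numbers `≤ N`, have the property `AlmostAll 1`. In particular (`u_i = 1`, `t_i = 0`) for almost all
vectors of prime numbers `a_i` up to `N` the `Σ`-Leopoldt statements hold for the fields belonging to
`∏ (w - a_i²) = 1` and all primes `p ≤ P(N)`.

(2) All families which are dominated at all primes `p` not dividing `M` (`DominatedAt`: for some `C = C(p)` the
proportion of the vectors in any class modulo `p ^ k` is at most `C p ^ (- k d) + o(1)`, for all `k`) have the property
`AlmostAll M`: so all subfamilies of positive lower density of equidistributed families, along arbitrary sets, of vectors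
of primes, and so on.

The starting files treat boxes and sequences which are uniformly distributed modulo all integers (`AlmostAllFields`), and
random orbits and metric sequences (`ResidueClassesAndOrbits`, helper918), for each `p`. Vectors of primes are not uniformly
distributed modulo `p`: they are vectors of units.

Proof. For every `p` the exceptional vectors are contained in few classes modulo a power of `p` (`Pool.Agent.N918.PN.Leo`,
helper918; the analysis over `ℤ_p` is due to helper924). At most the proportion `20 / φ(p ^ k)` of the primes is in a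
class modulo `p ^ k` (prime number theorem for arithmetic progressions, helper923), and `φ(p ^ k) ≥ p ^ k / 2`. A diagonal
argument gives `P(N)`.
-/

set_option autoImplicit false

namespace Pool.Agent.Results.MP_fc6b1e_nt.PrimeParameters

open Filter
open Pool.Agent.Results.MP_fc6b1e_nt.AlmostAllFields (Good good_of)
open Pool.Agent.Run7.h316.EQ (Rare primeBox)
open Pool.Agent.Run7.h316.PN (DominatedAt)

/-- The vectors of parameters which are not good for some prime `p ≤ P` not dividing `M`. -/
def Bad {d : ℕ} (M P : ℕ) : Set (Fin d → ℤ) :=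
  {a | ∃ (p : ℕ) (_ : Fact p.Prime), p ≤ P ∧ ¬ p ∣ M ∧ ¬ Good p a}

/-- There is a function `P N` tending to infinity such that at most the proportion `1 / (P N + 1)` of the `w` in `S N` is
bad for some prime `p ≤ P N` not dividing `M`. -/
def AlmostAll {d : ℕ} (M : ℕ) {Ω : Type} (S : ℕ → Finset Ω) (a : Ω → Fin d → ℤ) : Prop :=
  ∃ P : ℕ → ℕ, Tendsto P atTop atTop ∧
    ∀ N : ℕ, (P N + 1) * {w : Ω | w ∈ S N ∧ a w ∈ Bad M (P N)}.ncard ≤ (S N).card

theorem almostAll {d : ℕ} (hd : 1 ≤ d) (M : ℕ) {Ω : Type} (S : ℕ → Finset Ω)
    (a : Ω → Fin d → ℤ) (h : ∀ p : ℕ, p.Prime → ¬ p ∣ M → DominatedAt p S a) :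
    AlmostAll M S a := by
  classical
  refine Pool.Agent.Run7.h316.PN.diagonal (fun j => Bad M j) ?_ fun j => ?_
  · ext y
    simp only [Bad, Set.mem_ofPred_eq, Set.mem_empty_iff_false, iff_false]
    rintro ⟨p, hp, hp0, -, -⟩
    have := hp.out.pos
    omega
  · refine Pool.Agent.Run7.h316.EQ.Rare.mono ?_
      (Pool.Agent.Run7.h316.PN.rare_biUnion' (S := S) (c := a)
        ((Finset.range (j + 1)).filter fun p => p.Prime ∧ ¬ p ∣ M)
        (B := fun p => {y | ∃ _ : Fact p.Prime, ¬ Good p y}) fun p hp => ?_)
    · rintro y ⟨p, hp, hpj, hpM, h2⟩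
      rw [Set.mem_iUnion₂]
      exact ⟨p, Finset.mem_filter.2 ⟨Finset.mem_range.2 (by omega), hp.out, hpM⟩, hp, h2⟩
    · rw [Finset.mem_filter] at hp
      have hF : Fact p.Prime := ⟨hp.2.1⟩
      refine Pool.Agent.Run7.h316.PN.rare_of_pnull hp.2.1.pos (h p hp.2.1 hp.2.2) ?_
      have h1 : Pool.Agent.N918.PN.PNull p {y : Fin d → ℤ | ∃ _ : Fact p.Prime, ¬ Good p y} := by
        refine (Pool.Agent.N918.PN.pnull_sym p hd).mono ?_ hp.2.1.pos
        rintro y ⟨_, h2⟩ h3
        exact h2 (good_of p hd y h3)
      exact h1

/-- **The `Σ`-Leopoldt conjecture for families with prime parameters** and for all families which are dominated at the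
primes not dividing `M`, at all primes up to a function tending to infinity. -/
theorem result (d : ℕ) (hd : 1 ≤ d) :
    (∀ u t : Fin d → ℤ, (∀ i, u i ≠ 0) →
      AlmostAll 1 (primeBox (Fin d)) (fun q i => u i * q i + t i)) ∧
    (∀ (M : ℕ) (Ω : Type) (S : ℕ → Finset Ω) (a : Ω → Fin d → ℤ),
      (∀ p : ℕ, p.Prime → ¬ p ∣ M → DominatedAt p S a) → AlmostAll M S a) :=
  ⟨fun u t hu => almostAll hd 1 _ _ fun _ hp _ =>
    Pool.Agent.Run7.h316.PN.dominatedAt_affine hp.pos
      (Pool.Agent.Run7.h316.PN.dominatedAt_primes hp) u t hu,
    fun M _ S a h => almostAll hd M S a h⟩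

end Pool.Agent.Results.MP_fc6b1e_nt.PrimeParameters
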