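import Pool.Agent.Run7.h972.AW.PN
import Pool.Agent.Results.MP_fc6b1e_nt.ResidueClassesAndOrbits

/-!
# The `Σ`-Leopoldt conjecture along random orbits of affine maps, for families with `d` parameters

For integers `a_1, …, a_d` let `F = ℚ(w)`, `∏ (w - a_i²) = 1`. `Good p a` (see `AlmostAllFields.lean`): the fields `F`
and, for every imaginary quadratic field `k`, fields `K ⊇ F k` exist; every such `F` is totally real of degree `d`; `w`
is neither a square in `F` nor in any totally complex quadratic extension `K` of `F`; and for EVERY totally complex
quadratic extension `K` of `F`, for `H = K(√w)`, the `Σ`-Leopoldt statement holds for the prime `p`, for every CM type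
`S` of `K` with values in `ℂ_p` and every character `χ` of `Gal(H/K)`. `Bad p σ` (starting file `ResidueClassesAndOrbits`) is the
set of the vectors in `ℤ ^ r` whose coordinates `σ i` are not a good vector.

The starting result treats the random orbits of a vector `v` under matrices `s_0, …, s_m ∈ SL_r(ℤ)`, `r ≥ 2`, which generate
`SL_r(ℤ/q)` for all `q` prime to some `q₀`, for the odd primes `p` which divide neither `q₀` nor all coordinates of `v`. Here the
maps are affine and need not be invertible, and almost surely all starting vectors are considered.

Let `x ↦ A_j x + b_j`, `j ≤ m`, be a finite family of affine maps of `ℤ ^ r` (`AffineWalk`) which for all `q` prime to some `M`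
are permutations of `(ℤ/q) ^ r` and generate a transitive group. The determinants of the `A_j` are arbitrary nonzero integers.
For instance `x ↦ 10 x + e` for vectors `e` of digits whose differences span `ℚ ^ r` (the parameters are integers with random
digits, read from the left), `x ↦ 2 x + 1`, `x ↦ 3 x` (`r = 1`), or random walks on `ℤ ^ r` (`A_j = 1`), of which polynomially
many vectors are visited. For independent and uniformly distributed indices `w 0, w 1, …` let `c_0 = v`,
`c_(t+1) = A_(w t) c_t + b_(w t)`.

**Theorem.** For almost every word `w`: for ALL starting vectors `v`, ALL primes `p` which do not divide `M` (also `p = 2`), ALL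
degrees `d` and ALL choices `σ` of `d` different coordinates the times `t` at which the vector of these coordinates of `c_t` is
not good have density zero.

Proof. The exceptional vectors are contained in few residue classes modulo a power of `p` (starting library,
`Pool.Agent.N924.LP` and `Pool.Agent.N918.PN`), and almost surely the orbits of all `v` are equidistributed modulo all `q` prime
to `M`: ergodic theorem for random walks on finite groups (`Pool.Agent.N24.RW`), applied to the group of affine permutations
(`Run7.h972.AW`).
-/

set_option autoImplicit false

namespace Pool.Agent.Results.MP_fc6b1e_nt.RandomAffineOrbits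

open MeasureTheory
open Pool.Agent.Results.MP_fc6b1e_nt.ResidueClassesAndOrbits (Bad pnull_pull)
open Pool.Agent.N24.RW (words)
open Pool.Agent.N24.KM (Rarely)
open Run7.h972.AW

theorem result (r : ℕ) (W : AffineWalk (Fin r)) :
    ∀ᵐ w ∂(words W.m), ∀ (v : Fin r → ℤ) (p : ℕ) [Fact p.Prime], ¬ p ∣ W.M →
      ∀ d : ℕ, 1 ≤ d → ∀ σ : Fin d → Fin r, Function.Injective σ →
        Rarely (aorb W v w) (Bad p σ) := by
  filter_upwards [aorb_rarely W] with w hw v p hp hM d hd σ hσ
  exact hw v p hp.out hM _ (pnull_pull p hd σ hσ)

end Pool.Agent.Results.MP_fc6b1e_nt.RandomAffineOrbits
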