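import Mathlib
import Pool.Agent.Run7.h508.BR.Ab
import Pool.Agent.Run7.h508.BR.LeoS

/-!
# The `Σ`-Leopoldt conjecture and unramified characters of prime order

Let `K` be a totally complex number field (for example a CM field), `S` a set of embeddings of `K`
into `ℂ_p` (for example a `p`-ordinary CM type) and `m > 0` an integer (for example `m = p`). For a
finite extension `H/K` let `δ(H)` be the dimension of the kernel of the regulator map
`x ↦ (log_p (σ x))_σ` on `ℂ_p ⊗ 𝓞_H^×`, where `σ` runs through the embeddings of `H` whose restriction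
to `K` lies in `S`. The `Σ`-Leopoldt conjecture holds for all characters of finite order of `K` if
and only if `δ(K) = 0` (which is the case of the trivial character, equivalent to Leopoldt's
conjecture for the maximal totally real subfield) and `δ(L) = δ(H)` for all `K ⊆ H ⊆ L`, `L/K`
abelian, `L/H` of prime degree, unramified everywhere and completely split above `m`.
-/

set_option autoImplicit false
set_option linter.unusedSectionVars false

namespace Pool.Agent.Results.MP_fc6b1e_nt.UnramifiedCharacters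

open NumberField TensorProduct Pool.Agent.W289.SL

/-- `x` is killed by the `ℂ_p`-linear extension of `u ↦ log_p (σ u)`. -/
def Killed {p : ℕ} [Fact p.Prime] {ℓ : ℂ_[p] → ℂ_[p]} (hℓ : IsIwasawaLog p ℓ)
    {H : Type} [Field H] (σ : H →+* ℂ_[p]) (x : UM p H) : Prop := logLin hℓ σ x = 0

/-- `x ∈ ℂ_p ⊗ 𝓞_H^×` is an eigenvector of `τ` with eigenvalue `c`. -/
def Eigen (p : ℕ) [Fact p.Prime] {H : Type} [Field H] (τ : H →+* H) (c : ℂ_[p]) (x : UM p H) :
    Prop := actLin p τ x = c • x

/-- The kernel of the map `x ↦ (log_p (σ x))_σ` on `ℂ_p ⊗ 𝓞_H^×`, where `σ` runs through the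
embeddings of `H` into `ℂ_p` whose restriction to `K` lies in `S`. -/
noncomputable def kernel {p : ℕ} [Fact p.Prime] {ℓ : ℂ_[p] → ℂ_[p]} (hℓ : IsIwasawaLog p ℓ)
    {K : Type} [Field K] (S : Set (K →+* ℂ_[p])) (H : Type) [Field H] [Algebra K H] :
    Submodule ℂ_[p] (UM p H) :=
  ⨅ σ : {σ : H →+* ℂ_[p] // σ.comp (algebraMap K H) ∈ S}, LinearMap.ker (logLin hℓ σ.1)

/-- The dimension of this kernel. -/
noncomputable def defect {p : ℕ} [Fact p.Prime] {ℓ : ℂ_[p] → ℂ_[p]} (hℓ : IsIwasawaLog p ℓ)
    {K : Type} [Field K] (S : Set (K →+* ℂ_[p])) (H : Type) [Field H] [Algebra K H] : ℕ :=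
  Module.finrank ℂ_[p] (kernel hℓ S H)

/-- The `Σ`-Leopoldt conjecture for `K`, `S` and all characters of finite order of the absolute
Galois group of `K` with values in `ℂ_p`: for all finite abelian extensions `H/K` and all characters
`χ` of `Gal(H/K)` the map `x ↦ (log_p (σ x))_σ` is injective on the `χ`-part of `ℂ_p ⊗ 𝓞_H^×`. -/
def AllCharacters {p : ℕ} [Fact p.Prime] {ℓ : ℂ_[p] → ℂ_[p]} (hℓ : IsIwasawaLog p ℓ)
    {K : Type} [Field K] (S : Set (K →+* ℂ_[p])) : Prop :=
  ∀ (H : Type) [Field H] [NumberField H] [Algebra K H], IsAbelianGalois K H →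
    ∀ (χ : (H ≃ₐ[K] H) →* ℂ_[p]ˣ) (x : UM p H),
    (∀ τ : H ≃ₐ[K] H, Eigen p (τ : H →+* H) (χ τ : ℂ_[p]ˣ) x) →
    (∀ σ : H →+* ℂ_[p], σ.comp (algebraMap K H) ∈ S → Killed hℓ σ x) → x = 0

/-- All inertia groups of `L/H` are trivial, and the decomposition groups of the primes above `m`
are trivial. -/
def UnramifiedSplit (m : ℕ) (H L : Type) [Field H] [Field L] [Algebra H L] : Prop :=
  ∀ P : Ideal (𝓞 L), P.IsMaximal → ∀ g : L ≃ₐ[H] L,
    ((∀ x y : 𝓞 L, (y : L) = g x → y - x ∈ P) → g = 1) ∧
    ((m : 𝓞 L) ∈ P → (∀ x y : 𝓞 L, (y : L) = g x → (y ∈ P ↔ x ∈ P)) → g = 1)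

/-- The defect does not change in the everywhere unramified extensions `L/H` of prime degree, split
above `m`, with `K ⊆ H ⊆ L` and `L/K` abelian. -/
def UnramifiedCase {p : ℕ} [Fact p.Prime] {ℓ : ℂ_[p] → ℂ_[p]} (hℓ : IsIwasawaLog p ℓ) (m : ℕ)
    {K : Type} [Field K] (S : Set (K →+* ℂ_[p])) : Prop :=
  ∀ (H L : Type) [Field H] [NumberField H] [Field L] [NumberField L] [Algebra K H] [Algebra H L]
    [Algebra K L] [IsScalarTower K H L], IsAbelianGalois K L →
    (Module.finrank H L).Prime → UnramifiedSplit m H L → defect hℓ S L = defect hℓ S H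

open Pool.Agent.Run7.h508.BR in
lemma unrSplit_of {m : ℕ} {K L : Type} [Field K] [Field L] [Algebra K L]
    (h : UnrSplit m K L) : UnramifiedSplit m K L := by
  intro P hP g
  refine ⟨fun h1 => (h P hP).1 g fun x => h1 x _ rfl, fun hm h1 => (h P hP).2 hm g fun x =>
    h1 x _ rfl⟩

open Pool.Agent.Run7.h508.BR in
/-- The conjecture for all characters says that there are no defects. -/
lemma all_iff {p : ℕ} [Fact p.Prime] {ℓ : ℂ_[p] → ℂ_[p]} (hℓ : IsIwasawaLog p ℓ)
    {K : Type} [Field K] [NumberField K] (S : Set (K →+* ℂ_[p])) :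
    AllCharacters hℓ S ↔ ∀ (H : Type) [Field H] [NumberField H] [Algebra K H],
      IsAbelianGalois K H → defect hℓ S H = 0 := by
  constructor
  · intro h H _ _ _ hab
    have hfin : FiniteDimensional K H := Module.Finite.of_restrictScalars_finite ℚ K H
    by_contra hne
    have h1 : ∃ x : slker hℓ S H, x ≠ 0 := by
      by_contra h2
      push Not at h2
      have : Subsingleton (slker hℓ S H) := ⟨fun a b => by rw [h2 a, h2 b]⟩
      exact hne (Module.finrank_zero_of_subsingleton (R := ℂ_[p]) (M := slker hℓ S H))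
    obtain ⟨x, hx⟩ := h1
    let _ : CommGroup (H ≃ₐ[K] H) :=
      { (inferInstance : Group (H ≃ₐ[K] H)) with
        mul_comm := fun a b => hab.toIsMulCommutative.is_comm.comm a b }
    obtain ⟨χ, y, hy, hy2⟩ := exists_eigen (G := H ≃ₐ[K] H) (slact hℓ S H)
      (slact_mul hℓ S H) (fun v => by
        apply Subtype.ext
        change actLin p ((1 : H ≃ₐ[K] H) : H →+* H) (v : UM p H) = (v : UM p H)
        induction (v : UM p H) using TensorProduct.induction_on with
        | zero => simp
        | tmul c u =>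
          rw [actLin_tmul]
          congr 1
        | add a b ha hb => rw [map_add, ha, hb]) hx
    apply hy
    apply Subtype.ext
    refine h H hab χ (y : UM p H) (fun τ => congrArg Subtype.val (hy2 τ)) ?_
    exact (mem_slker hℓ S).mp y.2
  · intro h H _ _ _ hab χ x _ hx
    have h1 : x ∈ slker hℓ S H := (mem_slker hℓ S).mpr hx
    have h2 : sleo hℓ S H = 0 := h H hab
    rw [slker_eq_bot hℓ S h2, Submodule.mem_bot] at h1
    exact h1

open Pool.Agent.Run7.h508.BR in
/-- **Main theorem.** Let `p` be a prime, `log_p` Iwasawa's logarithm, `m > 0`, `K` a totally complex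
number field and `S` a set of embeddings of `K` into `ℂ_p`.

* The `Σ`-Leopoldt conjecture holds for all characters of finite order of `K` if and only if
  `δ(K) = 0` and `δ(L) = δ(H)` for all `K ⊆ H ⊆ L`, `L/K` abelian, `L/H` of prime degree,
  unramified everywhere and split above `m`.
* If `δ(L) = δ(H)` for all these extensions, then `δ(H) = δ(K)` for all abelian extensions `H/K`.
* The conjecture holds for all characters if and only if `δ(H) = 0` for all abelian `H/K`. -/
theorem result (p : ℕ) [Fact p.Prime] (ℓ : ℂ_[p] → ℂ_[p]) (hℓ : IsIwasawaLog p ℓ) (m : ℕ)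
    (hm : m ≠ 0) (K : Type) [Field K] [NumberField K] (hK : IsTotallyComplex K)
    (S : Set (K →+* ℂ_[p])) :
    (AllCharacters hℓ S ↔ defect hℓ S K = 0 ∧ UnramifiedCase hℓ m S) ∧
    (UnramifiedCase hℓ m S → ∀ (H : Type) [Field H] [NumberField H] [Algebra K H],
      IsAbelianGalois K H → defect hℓ S H = defect hℓ S K) ∧
    (AllCharacters hℓ S ↔ ∀ (H : Type) [Field H] [NumberField H] [Algebra K H],
      IsAbelianGalois K H → defect hℓ S H = 0) := by
  have key : UnramifiedCase hℓ m S → ∀ (H : Type) [Field H] [NumberField H] [Algebra K H],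
      IsAbelianGalois K H → defect hℓ S H = defect hℓ S K := by
    intro h H _ _ _ hab
    have hno : NoChangeAb (sleoFun hℓ S) m := by
      intro F L _ _ _ _ _ _ _ _ _ hL _ hp hu
      have h1 : sleo hℓ S L = sleo hℓ S F := h F L hL hp (unrSplit_of hu)
      change (sleo hℓ S F : ℂ_[p]) = (sleo hℓ S L : ℂ_[p])
      rw [h1]
    have h1 : (sleo hℓ S H : ℂ_[p]) = (sleo hℓ S K : ℂ_[p]) :=
      abelian_const (sleoFun hℓ S) hm hno hK H
    have h2 : sleo hℓ S H = sleo hℓ S K := by exact_mod_cast h1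
    exact h2
  refine ⟨⟨fun h => ?_, fun ⟨h0, h⟩ => ?_⟩, key, all_iff hℓ S⟩
  · rw [all_iff] at h
    refine ⟨h K inferInstance, fun H L _ _ _ _ _ _ _ _ hab _ _ => ?_⟩
    have h1 : IsAbelianGalois K H := IsAbelianGalois.tower_bot K H L
    rw [h L hab, h H h1]
  · rw [all_iff]
    intro H _ _ _ hab
    rw [key h H hab, h0]

end Pool.Agent.Results.MP_fc6b1e_nt.UnramifiedCharacters
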